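import Pool.Agent.J4H48.LA.Stm
import Pool.Agent.TH577.UA.Dom
set_option autoImplicit false

/-!
(DOM), (TOR): the coordinate ring is a domain; loops from periodic families of points.
-/

namespace Pool.Agent.J4H48.LA

open Pool.Agent.TH826.MK (KQ symb Unramified unitPart Torus circ)

open Pool.Agent.TH826.UH (pr NZ pairing_eq_pr)

open Pool.Agent.TH577.UA

open Pool.Agent.TH826.GA (cm lc)

theorem dir_det {k l : Fin 3} (h : k ≠ l) : dir k 0 * dir l 1 - dir k 1 * dir l 0 ≠ 0 := by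
  unfold dir
  fin_cases k <;> fin_cases l <;> simp_all

theorem dir_ne (k : Fin 3) : ∃ j, dir k j ≠ 0 := by
  unfold dir
  fin_cases k
  · exact ⟨0, by simp⟩
  · exact ⟨1, by simp⟩
  · exact ⟨0, by simp⟩

theorem dir_prop {k l : Fin 3} {κ : ℚ} (h : ∀ j, dir k j = κ * dir l j) : k = l ∧ κ = 1 := by
  have hkl : k = l := by
    by_contra hne
    have h0 := h 0
    have h1 := h 1
    apply dir_det hne
    rw [h0, h1]
    ring
  refine ⟨hkl, ?_⟩
  subst hkl
  obtain ⟨j, hj⟩ := dir_ne k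
  have h1 := h j
  have h2 : (κ - 1) * dir k j = 0 := by linear_combination -h1
  rcases mul_eq_zero.1 h2 with h3 | h3
  · linear_combination h3
  · exact absurd h3 hj

theorem distinct {m : ℕ} {cls : Fin (m + 1) → Fin 3} {pos : Fin (m + 1) → ℤ}
    (hG : Gen cls pos) : Distinct (cf cls) (ps pos) := by
  rintro e f hef κ ⟨h1, h2⟩
  obtain ⟨h3, h4⟩ := dir_prop h1
  apply hef
  refine hG.inj e f h3 ?_
  unfold ps at h2
  rw [h4, one_mul] at h2
  exact_mod_cast h2

theorem rankTwo {m : ℕ} {cls : Fin (m + 1) → Fin 3} {pos : Fin (m + 1) → ℤ}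
    (hG : Gen cls pos) : ∃ T : Fin 2 → Fin (m + 1), (cm (cf cls) T).det ≠ 0 := by
  obtain ⟨e, f, hef⟩ := hG.two
  refine ⟨![e, f], ?_⟩
  rw [Matrix.det_fin_two]
  exact dir_det hef

theorem t_DOM : S_DOM := by
  intro m cls pos lam hG hlam
  have h0 : ((lam : ℚ)) ≠ 0 := Int.cast_ne_zero.2 hlam
  exact isDomain_ARing (d := 0) (w := fun _ => 0) (e0 := 0) (rankTwo hG) (distinct hG)
    (dir_ne (cls 0)) rfl h0

theorem t_TOR : S_TOR := by
  intro m cls pos lam q hq hper hsum heq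
  set x : (Fin 1 → ℝ) → (Fin 2 → ℂ) := fun θ => ![q 0 (θ 0), q 1 (θ 0)] with hx
  have hlc : ∀ θ e, lc (algebraMap ℚ ℂ) (cf cls) (ps pos) (x θ) e =
      q (cls e) (θ 0) - (pos e : ℂ) := by
    intro θ e
    unfold lc cf ps dir
    have h2 : q 2 (θ 0) = -q 0 (θ 0) - q 1 (θ 0) := by linear_combination hsum (θ 0)
    rw [Fin.sum_univ_two, hx]
    generalize cls e = k
    fin_cases k
    · simp
    · simp
    · simp [h2]
      ring
  have hc : ContDiff ℝ 2 x := by
    rw [contDiff_pi]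
    intro k
    fin_cases k
    · exact (hq 0).comp (contDiff_apply ℝ ℝ 0)
    · exact (hq 1).comp (contDiff_apply ℝ ℝ 0)
  have hp : ∀ θ i, x (θ + Pi.single i 1) = x θ := by
    intro θ i
    have h0 : (θ + Pi.single i 1 : Fin 1 → ℝ) 0 = θ 0 + 1 := by
      rw [Pi.add_apply, Subsingleton.elim i 0, Pi.single_eq_same]
    rw [hx]
    simp only [h0, hper]
  have hP : ∀ θ, PtA (algebraMap ℚ ℂ) (lam : ℚ) 1 (fun _ => 0) (cf cls) (ps pos) (x θ) := by
    intro θ
    unfold PtA
    simp only [hlc, zero_add, pow_one, MvPolynomial.eval₂_one, one_mul]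
    rw [map_intCast]
    exact heq (θ 0)
  refine ⟨mkA x hc hp hP, fun θ y => ?_, fun e f => ?_⟩
  · show evA (hP θ) _ = _
    rw [evA_acst]
    rfl
  · have nz : ∀ e, NZ fun s => q (cls e) s - (pos e : ℂ) := by
      intro e
      refine ⟨(hq _).sub contDiff_const, fun s h => ?_⟩
      have h1 := heq s
      rw [Finset.prod_eq_zero (Finset.mem_univ e) h, mul_zero] at h1
      exact zero_ne_one h1
    rw [← pairing_eq_pr (nz e) (nz f), Torus.reg_symb]
    unfold Torus.pair
    congr 1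
    funext i θ
    fin_cases i
    · show (mkA x hc hp hP).fn (au (lam : ℚ) 1 (fun _ => 0) (cf cls) (ps pos) e :
        ARing (lam : ℚ) 1 (fun _ => 0) (cf cls) (ps pos)) θ = _
      rw [mkA_au]
      exact hlc _ _
    · show (mkA x hc hp hP).fn (au (lam : ℚ) 1 (fun _ => 0) (cf cls) (ps pos) f :
        ARing (lam : ℚ) 1 (fun _ => 0) (cf cls) (ps pos)) θ = _
      rw [mkA_au]
      exact hlc _ _

end Pool.Agent.J4H48.LA
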