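import Pool.Agent.J4H48.LA.Stm
set_option autoImplicit false

/-!
(NUM): the numerical inequality.
-/

namespace Pool.Agent.J4H48.LA

theorem pow_five_le (D : ℕ) : (D : ℝ) ^ 5 ≤ 132 * 2 ^ D := by
  have h : ∀ D : ℕ, 8 ≤ D → D ^ 5 ≤ 132 * 2 ^ D := by
    intro D hD
    induction D, hD using Nat.le_induction with
    | base => norm_num
    | succ n hn ih =>
      have h1 : (n + 1) ^ 5 ≤ 2 * n ^ 5 := by
        obtain ⟨k, rfl⟩ := Nat.exists_eq_add_of_le hn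
        ring_nf
        have h2 : k ≤ k ^ 2 + 1 := by nlinarith
        nlinarith [Nat.zero_le (k ^ 5), Nat.zero_le (k ^ 4), Nat.zero_le (k ^ 3),
          Nat.zero_le (k ^ 2), Nat.zero_le k]
      calc (n + 1) ^ 5 ≤ 2 * n ^ 5 := h1
        _ ≤ 2 * (132 * 2 ^ n) := by omega
        _ = 132 * 2 ^ (n + 1) := by ring
  rcases lt_or_ge D 8 with h8 | h8
  · interval_cases D <;> norm_num
  · exact_mod_cast h D h8

theorem t_NUM : S_NUM := by
  intro m lam hlam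
  have hl : (10 : ℝ) ^ 12 ≤ |(lam : ℝ)| := by exact_mod_cast hlam
  have hl0 : (0 : ℝ) < |(lam : ℝ)| := by linarith [show (0 : ℝ) < 10 ^ 12 by norm_num]
  have hlog : 1 ≤ Real.log |(lam : ℝ)| := by
    rw [Real.le_log_iff_exp_le hl0]
    have := Real.exp_one_lt_d9
    linarith [show (3 : ℝ) < 10 ^ 12 by norm_num]
  refine ⟨by unfold tau; positivity, ?_⟩
  have h5 := pow_five_le (m + 1)
  push_cast at h5
  have h2 : (0 : ℝ) < 2 ^ (m + 1) := by positivity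
  have h6 : 3 * tau m lam * (m + 1) ^ 4 =
      3 * 10 ^ 9 * ((m + 1 : ℝ) ^ 5) / (|(lam : ℝ)| * 2 ^ (m + 1)) := by
    unfold tau
    field_simp
  rw [h6]
  refine lt_of_lt_of_le ?_ hlog
  rw [div_lt_one (by positivity)]
  calc 3 * 10 ^ 9 * ((m + 1 : ℝ) ^ 5) ≤ 3 * 10 ^ 9 * (132 * 2 ^ (m + 1)) := by gcongr
    _ < 10 ^ 12 * 2 ^ (m + 1) := by nlinarith
    _ ≤ |(lam : ℝ)| * 2 ^ (m + 1) := by gcongr

end Pool.Agent.J4H48.LA
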