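import Pool.Agent.J4H48.LA.Stm
set_option autoImplicit false

/-!
(UNR): the classes of circulations are unramified.
-/

namespace Pool.Agent.J4H48.LA

open scoped WithZero

open Pool.Agent.TH826.MK

open Pool.Agent.TH826.SX (symb_self)

open Pool.Agent.TH577.UA (ARing aeqn au acst apol prod_au coe_au)

open Pool.Agent.TH826.GA (lf)

section bil

variable {L : Type*} [Field L]

theorem sy_mul_left (a b y : Lˣ) : symb ![a * b, y] = symb ![a, y] + symb ![b, y] := by
  have h := symb_update_mul (![a, y] : Fin 2 → Lˣ) 0 a b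
  have e : ∀ z : Lˣ, Function.update (![a, y] : Fin 2 → Lˣ) 0 z = ![z, y] := by
    intro z
    funext i
    fin_cases i <;> simp
  rwa [e, e, e] at h

theorem sy_mul_right (y a b : Lˣ) : symb ![y, a * b] = symb ![y, a] + symb ![y, b] := by
  have h := symb_update_mul (![y, a] : Fin 2 → Lˣ) 1 a b
  have e : ∀ z : Lˣ, Function.update (![y, a] : Fin 2 → Lˣ) 1 z = ![y, z] := by
    intro z
    funext i
    fin_cases i <;> simp
  rwa [e, e, e] at h

theorem sy_div_left (a b y : Lˣ) : symb ![a / b, y] = symb ![a, y] - symb ![b, y] := by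
  rw [eq_sub_iff_add_eq, ← sy_mul_left, div_mul_cancel]

theorem sy_div_right (y a b : Lˣ) : symb ![y, a / b] = symb ![y, a] - symb ![y, b] := by
  rw [eq_sub_iff_add_eq, ← sy_mul_right, div_mul_cancel]

theorem sum_shift {m : ℕ} {cls : Fin (m + 1) → Fin 3} {c : Fin (m + 1) → Fin (m + 1) → ℤ}
    (hc : Circ cls c) (x : Fin (m + 1) → Lˣ) (h : Lˣ) :
    ∑ e, ∑ f, (c e f : ℚ) • symb ![x e, x f] =
      ∑ e, ∑ f, (c e f : ℚ) • symb ![x e / h, x f / h] := by
  have hrow : ∀ e, ∑ f, (c e f : ℚ) = 0 := by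
    intro e
    rw [← Int.cast_sum, hc.flow e, Int.cast_zero]
  have hcol : ∀ f, ∑ e, (c e f : ℚ) = 0 := by
    intro f
    have h1 : ∑ e, (c e f : ℚ) = -∑ e, (c f e : ℚ) := by
      rw [← Finset.sum_neg_distrib]
      refine Finset.sum_congr rfl fun e _ => ?_
      rw [hc.anti f e]
      push_cast
      ring
    rw [h1, hrow, neg_zero]
  have e1 : ∀ e f, (c e f : ℚ) • symb ![x e / h, x f / h] =
      (c e f : ℚ) • symb ![x e, x f] - (c e f : ℚ) • symb ![x e, h] -
        ((c e f : ℚ) • symb ![h, x f] - (c e f : ℚ) • symb ![h, h]) := by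
    intro e f
    rw [sy_div_left, sy_div_right, sy_div_right, smul_sub, smul_sub, smul_sub]
  simp only [e1, Finset.sum_sub_distrib]
  have z1 : ∑ e, ∑ f, (c e f : ℚ) • symb ![x e, h] = 0 := by
    refine Finset.sum_eq_zero fun e _ => ?_
    rw [← Finset.sum_smul, hrow, zero_smul]
  have z2 : ∑ e, ∑ f, (c e f : ℚ) • symb ![h, x f] = 0 := by
    rw [Finset.sum_comm]
    refine Finset.sum_eq_zero fun f _ => ?_
    rw [← Finset.sum_smul, hcol, zero_smul]
  have z3 : ∑ e, ∑ f, (c e f : ℚ) • (symb ![h, h] : KQ L 2) = 0 := by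
    refine Finset.sum_eq_zero fun e _ => ?_
    rw [← Finset.sum_smul, hrow, zero_smul]
  rw [z1, z2, z3]
  simp

theorem mem_of_pm {v : Valuation L ℤᵐ⁰} {u : Lˣ}
    (h : v ((u : L) - 1) < 1 ∨ v ((u : L) + 1) < 1) (k : Fin 2) (a : Fin 2 → Lˣ)
    (ha : a k = u) : symb a ∈ unitPart v 2 := by
  refine mem_unitPart_of_pow v k a (m := 2) two_ne_zero ?_
  rw [ha, show (u : L) ^ 2 - 1 = (u - 1) * (u + 1) by ring, map_mul]
  have h2 : v (2 : L) ≤ 1 := by
    have := val_le_one_of_integral v (x := (2 : L)) (by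
      have h3 : IsIntegral ℤ ((2 : ℤ) : L) := isIntegral_algebraMap (R := ℤ) (x := (2 : ℤ))
      exact_mod_cast h3)
    exact this
  rcases h with h | h
  · have h1 : v ((u : L) + 1) ≤ 1 := by
      rw [show (u : L) + 1 = (u - 1) + 2 by ring]
      exact (v.map_add _ _).trans (max_le h.le h2)
    exact (mul_le_mul' le_rfl h1).trans_lt (by rw [mul_one]; exact h)
  · have h1 : v ((u : L) - 1) ≤ 1 := by
      rw [show (u : L) - 1 = (u + 1) - 2 by ring]
      exact (v.map_sub _ _).trans (max_le h.le h2)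
    exact (mul_le_mul' h1 le_rfl).trans_lt (by rw [one_mul]; exact h)

theorem sum_mem {m : ℕ} {cls : Fin (m + 1) → Fin 3} {c : Fin (m + 1) → Fin (m + 1) → ℤ}
    (hc : Circ cls c) (v : Valuation L ℤᵐ⁰) (x : Fin (m + 1) → Lˣ) (h : Lˣ)
    (hcase : ∀ e f, cls e = cls f ∨ (v ((x e / h : Lˣ) : L) = 1 ∧ v ((x f / h : Lˣ) : L) = 1) ∨
      (v (((x e / h : Lˣ) : L) - 1) < 1 ∨ v (((x e / h : Lˣ) : L) + 1) < 1) ∨
      (v (((x f / h : Lˣ) : L) - 1) < 1 ∨ v (((x f / h : Lˣ) : L) + 1) < 1)) :
    ∑ e, ∑ f, (c e f : ℚ) • symb ![x e, x f] ∈ unitPart v 2 := by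
  rw [sum_shift hc x h]
  refine Submodule.sum_mem _ fun e _ => Submodule.sum_mem _ fun f _ => ?_
  rcases hcase e f with h1 | h1 | h1 | h1
  · rw [hc.same e f h1, Int.cast_zero, zero_smul]
    exact Submodule.zero_mem _
  · refine Submodule.smul_mem _ _ (Submodule.subset_span ⟨_, fun i => ?_, rfl⟩)
    fin_cases i
    · exact h1.1
    · exact h1.2
  · exact Submodule.smul_mem _ _ (mem_of_pm h1 0 _ rfl)
  · exact Submodule.smul_mem _ _ (mem_of_pm h1 1 _ rfl)

theorem exists_order (v : Valuation L ℤᵐ⁰) (q : Fin 3 → L) (hq : q 0 + q 1 + q 2 = 0) :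
    ∃ k l r : Fin 3, (∀ j, j = k ∨ j = l ∨ j = r) ∧ q k + q l + q r = 0 ∧ v (q l) = v (q k) ∧
      v (q r) ≤ v (q k) := by
  obtain ⟨k, -, hk⟩ := Finset.exists_max_image Finset.univ (fun j => v (q j))
    ⟨(0 : Fin 3), Finset.mem_univ _⟩
  have hk' : ∀ j, v (q j) ≤ v (q k) := fun j => hk j (Finset.mem_univ j)
  have hsum : q k + q (k + 1) + q (k + 2) = 0 := by
    fin_cases k
    · exact hq
    · show q 1 + q 2 + q 0 = 0
      linear_combination hq
    · show q 2 + q 0 + q 1 = 0
      linear_combination hq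
  have hall : ∀ j : Fin 3, j = k ∨ j = k + 1 ∨ j = k + 2 := by
    intro j
    fin_cases k <;> fin_cases j <;> decide
  have hmax : v (q k) ≤ max (v (q (k + 1))) (v (q (k + 2))) := by
    have h1 : q k = -(q (k + 1) + q (k + 2)) := by linear_combination hsum
    rw [h1, Valuation.map_neg]
    exact v.map_add _ _
  rcases le_max_iff.1 hmax with h1 | h1
  · exact ⟨k, k + 1, k + 2, hall, hsum, le_antisymm (hk' _) h1, hk' _⟩
  · refine ⟨k, k + 2, k + 1, fun j => ?_, by linear_combination hsum,
      le_antisymm (hk' _) h1, hk' _⟩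
    rcases hall j with h | h | h
    · exact Or.inl h
    · exact Or.inr (Or.inr h)
    · exact Or.inr (Or.inl h)

theorem main_mem {m : ℕ} {cls : Fin (m + 1) → Fin 3} {pos : Fin (m + 1) → ℤ}
    {c : Fin (m + 1) → Fin (m + 1) → ℤ} (hc : Circ cls c) (v : Valuation L ℤᵐ⁰)
    (x : Fin (m + 1) → Lˣ) (q : Fin 3 → L) (hq : q 0 + q 1 + q 2 = 0)
    (hx : ∀ e, (x e : L) = q (cls e) - (pos e : L)) (lam : ℤ)
    (hprod : (lam : L) * ∏ e, (x e : L) = 1) :
    ∑ e, ∑ f, (c e f : ℚ) • symb ![x e, x f] ∈ unitPart v 2 := by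
  have hint : ∀ n : ℤ, v (n : L) ≤ 1 := fun n =>
    val_le_one_of_integral v (isIntegral_algebraMap (R := ℤ) (x := n))
  by_cases hA : ∀ e, v (x e : L) ≤ 1
  · have h1 : ∀ e, v (x e : L) = 1 := by
      intro e
      refine le_antisymm (hA e) ?_
      have h2 := congrArg v hprod
      rw [map_mul, map_prod, map_one, ← Finset.mul_prod_erase _ _ (Finset.mem_univ e)] at h2
      have h3 : ∏ f ∈ Finset.univ.erase e, v (x f : L) ≤ 1 :=
        Finset.prod_le_one' fun f _ => hA f
      calc (1 : ℤᵐ⁰) = v (lam : L) * (v (x e : L) * ∏ f ∈ Finset.univ.erase e, v (x f : L)) :=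
            h2.symm
        _ ≤ 1 * (v (x e : L) * 1) := mul_le_mul' (hint lam) (mul_le_mul' le_rfl h3)
        _ = v (x e : L) := by rw [one_mul, mul_one]
    refine sum_mem hc v x 1 fun e f => Or.inr (Or.inl ?_)
    rw [div_one, div_one]
    exact ⟨h1 e, h1 f⟩
  · push Not at hA
    obtain ⟨e0, he0⟩ := hA
    obtain ⟨k, l, r, hall, hsum, hl, hr⟩ := exists_order v q hq
    have hbig : 1 < v (q k) := by
      have h1 : 1 < v (q (cls e0)) := by
        by_contra h
        push Not at h
        rw [hx e0] at he0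
        exact absurd he0 (not_lt.2 ((v.map_sub _ _).trans (max_le h (hint _))))
      rcases hall (cls e0) with h | h | h
      · rwa [h] at h1
      · rwa [h, hl] at h1
      · rw [h] at h1
        exact lt_of_lt_of_le h1 hr
    have hk0 : q k ≠ 0 := by
      intro h
      rw [h, map_zero] at hbig
      exact absurd hbig (not_lt.2 zero_le_one)
    set h : Lˣ := Units.mk0 (q k) hk0 with hh
    have hv0 : 0 < v (q k) := lt_trans zero_lt_one hbig
    have hdiv : ∀ y : L, v y < v (q k) → v (y / q k) < 1 := by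
      intro y hy
      rw [map_div₀, div_lt_one₀ hv0]
      exact hy
    have hcoe : ∀ e, ((x e / h : Lˣ) : L) = (q (cls e) - (pos e : L)) / q k := by
      intro e
      rw [Units.val_div_eq_div_val, hx e, hh, Units.val_mk0]
    have hlt : ∀ n : ℤ, v (n : L) < v (q k) := fun n => (hint n).trans_lt hbig
    -- the lines of the family `k`
    have ck : ∀ e, cls e = k → v (((x e / h : Lˣ) : L) - 1) < 1 := by
      intro e he
      rw [hcoe, he, show (q k - (pos e : L)) / q k - 1 = -((pos e : L) / q k) by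
        field_simp
        ring, Valuation.map_neg]
      exact hdiv _ (hlt _)
    rcases lt_or_eq_of_le hr with hr1 | hr1
    · have cl' : ∀ e, cls e = l → v (((x e / h : Lˣ) : L) + 1) < 1 := by
        intro e he
        rw [hcoe, he, show (q l - (pos e : L)) / q k + 1 = -((q r + (pos e : L)) / q k) by
          have h1 : q l = -q k - q r := by linear_combination hsum
          rw [h1]
          field_simp
          ring, Valuation.map_neg]
        exact hdiv _ ((v.map_add _ _).trans_lt (max_lt hr1 (hlt _)))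
      refine sum_mem hc v x h fun e f => ?_
      rcases hall (cls e) with he | he | he
      · exact Or.inr (Or.inr (Or.inl (Or.inl (ck e he))))
      · exact Or.inr (Or.inr (Or.inl (Or.inr (cl' e he))))
      · rcases hall (cls f) with hf | hf | hf
        · exact Or.inr (Or.inr (Or.inr (Or.inl (ck f hf))))
        · exact Or.inr (Or.inr (Or.inr (Or.inr (cl' f hf))))
        · exact Or.inl (he.trans hf.symm)
    · have hval : ∀ e, v ((x e / h : Lˣ) : L) = 1 := by
        intro e
        have h1 : v (q (cls e)) = v (q k) := by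
          rcases hall (cls e) with he | he | he
          · rw [he]
          · rw [he, hl]
          · rw [he, hr1]
        have h2 : v (q (cls e) - (pos e : L)) = v (q k) := by
          rw [← h1]
          refine Valuation.map_sub_eq_of_lt_left v ?_
          rw [h1]
          exact hlt _
        rw [hcoe, map_div₀, h2, div_self (ne_of_gt hv0)]
      exact sum_mem hc v x h fun e f => Or.inr (Or.inl ⟨hval e, hval f⟩)

end bil

theorem t_UNR.{u} : S_UNR.{u} := by
  intro m cls pos lam hlam c hc L _ φ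
  set x : Fin (m + 1) → Lˣ := fun e => Units.map (φ : LR cls pos lam →* L) (lu cls pos lam e)
    with hx
  set P := apol (lam : ℚ) (1 : MvPolynomial (Fin 2) ℚ) (fun _ => 0) (cf cls) (ps pos) with hP
  set q : Fin 3 → L := ![φ (P (MvPolynomial.X 0)), φ (P (MvPolynomial.X 1)),
    -φ (P (MvPolynomial.X 0)) - φ (P (MvPolynomial.X 1))] with hq
  have hmap : KQ.map 2 φ (cl cls pos lam c) = ∑ e, ∑ f, (c e f : ℚ) • symb ![x e, x f] := by
    unfold cl
    rw [map_sum]
    refine Finset.sum_congr rfl fun e _ => ?_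
    rw [map_sum]
    refine Finset.sum_congr rfl fun f _ => ?_
    rw [map_smul, KQ.map_symb]
    congr 2
    funext i
    fin_cases i <;> rfl
  rw [hmap]
  have hint : ∀ n : ℤ, φ (P (MvPolynomial.C (n : ℚ))) = (n : L) := by
    intro n
    have h1 : (φ.comp (P.comp MvPolynomial.C)) (n : ℚ) = (n : L) := map_intCast _ n
    exact h1
  have hxe : ∀ e, (x e : L) = q (cls e) - (pos e : L) := by
    intro e
    have h1 : (x e : L) = φ (P (lf (cf cls) (ps pos) e)) := rfl
    rw [h1]
    unfold lf
    rw [Fin.sum_univ_two]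
    simp only [map_sub, map_add, map_mul]
    rw [show φ (P (MvPolynomial.C (ps pos e))) = (pos e : L) from hint (pos e)]
    congr 1
    have h2 : cf cls e = dir (cls e) := rfl
    rw [h2]
    generalize cls e = k
    rw [hq]
    fin_cases k
    · simp [dir]
    · simp [dir]
    · simp [dir]
      ring
  have hsum : q 0 + q 1 + q 2 = 0 := by
    rw [hq]
    simp
  have hprod : (lam : L) * ∏ e, (x e : L) = 1 := by
    have h1 := congrArg φ (prod_au (lam : ℚ) (1 : MvPolynomial (Fin 2) ℚ) (fun _ => 0) (cf cls)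
      (ps pos))
    rw [map_mul, map_mul, map_one, map_one, one_mul, map_prod] at h1
    simp only [zero_add, pow_one] at h1
    rw [← h1]
    congr 1
    exact (hint lam).symm
  unfold Unramified
  rw [Submodule.mem_iInf]
  intro v
  rw [Submodule.mem_iInf]
  intro _
  exact main_mem hc v x q hsum hxe lam hprod

end Pool.Agent.J4H48.LA
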