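import Pool.Agent.TH577.UA.Final
import Pool.Agent.TH826.UH.Tor
set_option autoImplicit false

/-!
The regulator on `K_2` for the curves `λ ∏_e L_e = 1`, where the `L_e` are lines in the three
directions `x`, `y`, `-x-y` with integral positions (uniform constant): exact statements.
-/

namespace Pool.Agent.J4H48.LA

open Pool.Agent.TH826.MK (KQ symb Unramified unitPart Torus circ)

open Pool.Agent.TH826.UH (pr NZ)

open Pool.Agent.TH577.UA (ARing aeqn au acst)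

/-- The linear parts of the three families of parallel lines: `x`, `y`, `-x-y`. -/
def dir : Fin 3 → Fin 2 → ℚ := ![![1, 0], ![0, 1], ![-1, -1]]

section defs

variable {m : ℕ} (cls : Fin (m + 1) → Fin 3) (pos : Fin (m + 1) → ℤ)

/-- The linear part of the line `e`. -/
def cf : Fin (m + 1) → Fin 2 → ℚ := fun e => dir (cls e)

/-- The position of the line `e`. -/
def ps : Fin (m + 1) → ℚ := fun e => (pos e : ℚ)

/-- The lines are different, no three of them have a common point, and not all of them are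
parallel. -/
structure Gen : Prop where
  inj : ∀ e f, cls e = cls f → pos e = pos f → e = f
  gen : ∀ e f t, cls e = 0 → cls f = 1 → cls t = 2 → pos e + pos f + pos t ≠ 0
  two : ∃ e f, cls e ≠ cls f

/-- The equation `λ ∏_e L_e - 1`, `L_e = x - pos e`, `y - pos e`, `-x-y - pos e` for
`cls e = 0, 1, 2`. -/
noncomputable abbrev leqn (lam : ℤ) : MvPolynomial (Fin 2) ℚ :=
  aeqn (lam : ℚ) 1 (fun _ => 0) (cf cls) (ps pos)

/-- The coordinate ring of the curve `λ ∏_e L_e = 1`. -/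
abbrev LR (lam : ℤ) : Type _ := ARing (lam : ℚ) 1 (fun _ => 0) (cf cls) (ps pos)

/-- The unit `L_e` of the coordinate ring. -/
noncomputable def lu (lam : ℤ) (e : Fin (m + 1)) : (LR cls pos lam)ˣ :=
  au (lam : ℚ) 1 (fun _ => 0) (cf cls) (ps pos) e

/-- Circulations on the complete multipartite graph with the lines as vertices and the three
families of parallel lines as parts. -/
structure Circ {R : Type*} [AddCommGroup R] (c : Fin (m + 1) → Fin (m + 1) → R) : Prop where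
  anti : ∀ e f, c f e = -c e f
  same : ∀ e f, cls e = cls f → c e f = 0
  flow : ∀ e, ∑ f, c e f = 0

/-- The class `∑_{e,f} c_{e,f} {L_e, L_f}`. -/
noncomputable def cl (lam : ℤ) (c : Fin (m + 1) → Fin (m + 1) → ℤ) : KQ (LR cls pos lam) 2 :=
  ∑ e, ∑ f, (c e f : ℚ) • symb ![lu cls pos lam e, lu cls pos lam f]

/-- The number of lines of the family `k`. -/
def num (k : Fin 3) : ℕ := (Finset.univ.filter fun e => cls e = k).card

/-- The number of independent cycles of the complete multipartite graph (the genus of the curve):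
`pq + pr + qr - (p + q + r) + 1`. -/
def gen : ℕ := num cls 0 * num cls 1 + num cls 0 * num cls 2 + num cls 1 * num cls 2 - m

/-- `± L_t` at the common point of the lines `e`, `f` (in the same direction for `t`, `e` or `t`,
`f`: the difference of the positions). -/
def del (e f t : Fin (m + 1)) : ℤ :=
  if cls t = cls e then pos e - pos t else
    if cls t = cls f then pos f - pos t else pos e + pos f + pos t

end defs

/-- the error: `10 ^ 9 n / (|λ| 2 ^ n)`, `n` lines -/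
noncomputable def tau (m : ℕ) (lam : ℤ) : ℝ :=
  10 ^ 9 * (m + 1) / (|(lam : ℝ)| * 2 ^ (m + 1))

/-- (DOM) use `Pool.Agent.TH577.UA.isDomain_ARing` -/
def S_DOM : Prop := ∀ (m : ℕ) (cls : Fin (m + 1) → Fin 3) (pos : Fin (m + 1) → ℤ) (lam : ℤ),
  Gen cls pos → lam ≠ 0 → IsDomain (LR cls pos lam)

/-- (CEN) the concave comparison: real points -/
def S_CEN : Prop := ∀ (m : ℕ) (cls : Fin (m + 1) → Fin 3) (pos : Fin (m + 1) → ℤ)
  (q : Fin 3 → ℝ) (S : ℝ), (∀ e f, cls e = cls f → pos e = pos f → e = f) →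
  q 0 + q 1 + q 2 = 0 → (∀ e, q (cls e) - pos e ≠ 0) →
  (∀ k, ∑ e ∈ Finset.univ.filter (fun e => cls e = k), 1 / (q k - pos e) = S) →
  (8 : ℝ) / 729 ≤ ∏ e, |q (cls e) - pos e|

/-- (SMO) smoothness at the complex points -/
def S_SMO : Prop := ∀ (m : ℕ) (cls : Fin (m + 1) → Fin 3) (pos : Fin (m + 1) → ℤ) (lam : ℤ),
  Gen cls pos → 92 ≤ |lam| → ∀ x : Fin 2 → ℂ,
    MvPolynomial.eval₂ (algebraMap ℚ ℂ) x (leqn cls pos lam) = 0 →
    ∃ j, MvPolynomial.eval₂ (algebraMap ℚ ℂ) x (MvPolynomial.pderiv j (leqn cls pos lam)) ≠ 0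

/-- (UNR) the classes of circulations are unramified in all fields over the coordinate ring -/
def S_UNR.{u} : Prop := ∀ (m : ℕ) (cls : Fin (m + 1) → Fin 3) (pos : Fin (m + 1) → ℤ) (lam : ℤ),
  lam ≠ 0 → ∀ c : Fin (m + 1) → Fin (m + 1) → ℤ, Circ cls c →
  ∀ (L : Type u) [Field L] (φ : LR cls pos lam →+* L),
    KQ.map 2 φ (cl cls pos lam c) ∈ Unramified L 2

/-- (GRO) -/
def S_GRO : Prop := ∀ S : Finset ℤ, (0 : ℤ) ∉ S →
  (9 / 256 : ℝ) * 2 ^ S.card ≤ ∏ s ∈ S, (|(s : ℝ)| - 1 / 2)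

/-- (FIX) a family of contractions of a disc: the fixed point is of class `C²` -/
def S_FIX : Prop := ∀ (T : ℝ → ℂ → ℂ) (κ : ℝ), 0 < κ →
  (∀ s v, ‖v‖ < κ → ContDiffAt ℝ 2 (fun y : ℝ × ℂ => T y.1 y.2) (s, v)) →
  (∀ s v, ‖v‖ ≤ κ → ‖T s v‖ ≤ κ / 2) →
  (∀ s v v', ‖v‖ ≤ κ → ‖v'‖ ≤ κ → ‖T s v - T s v'‖ ≤ ‖v - v'‖ / 2) →
  (∀ s v, ‖v‖ ≤ κ → T (s + 1) v = T s v) →
  ∃ V : ℝ → ℂ, ContDiff ℝ 2 V ∧ (∀ s, V (s + 1) = V s) ∧ (∀ s, ‖V s‖ ≤ κ / 2) ∧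
    ∀ s, T s (V s) = V s

/-- (BRA) the branch near a vertex -/
def S_BRA : Prop := ∀ (A B C : Finset ℤ) (μ : ℂ) (n : ℕ), (0 : ℤ) ∉ A → (0 : ℤ) ∉ B →
  (0 : ℤ) ∉ C → n = A.card + B.card + C.card + 2 → (10 : ℝ) ^ 12 ≤ ‖μ‖ →
  ∃ V : ℝ → ℂ, ContDiff ℝ 2 V ∧ (∀ s, V (s + 1) = V s) ∧
    (∀ s, μ * (circ (1 / 2) s * V s * (∏ α ∈ A, (circ (1 / 2) s + (α : ℂ))) *
      (∏ β ∈ B, (V s + (β : ℂ))) * ∏ γ ∈ C, (circ (1 / 2) s + V s + (γ : ℂ))) = 1) ∧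
    (∀ s, ‖V s‖ ≤ 10 ^ 6 / (‖μ‖ * 2 ^ n)) ∧
    ∀ s, ‖deriv V s‖ ≤ 10 * n * (10 ^ 6 / (‖μ‖ * 2 ^ n))

/-- (E1) the regulator of two functions which are nearly constant multiples of `1 + d U`,
`U = circ (1/2)`, `|d| ≤ 1` -/
def S_E1 : Prop := ∀ (c c' d d' : ℂ) (x x' : ℝ → ℂ) (η η' : ℝ), c ≠ 0 → c' ≠ 0 → ‖d‖ ≤ 1 →
  ‖d'‖ ≤ 1 → ContDiff ℝ 2 x → ContDiff ℝ 2 x' → (∀ s, x (s + 1) = x s) →
  (∀ s, x' (s + 1) = x' s) → η ≤ 1 / 4 → (∀ s, ‖x s‖ ≤ η) → (∀ s, ‖x' s‖ ≤ η) →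
  (∀ s, ‖deriv x s‖ ≤ η') → (∀ s, ‖deriv x' s‖ ≤ η') →
  |pr (fun s => c * (1 + d * circ (1 / 2) s) * (1 + x s))
    (fun s => c' * (1 + d' * circ (1 / 2) s) * (1 + x' s))| ≤ 30 * (η + η')

/-- (E2) -/
def S_E2 : Prop := ∀ (c d : ℂ) (x : ℝ → ℂ) (η : ℝ), c ≠ 0 → ‖d‖ ≤ 1 → ContDiff ℝ 2 x →
  (∀ s, x (s + 1) = x s) → η ≤ 1 / 4 → (∀ s, ‖x s‖ ≤ η) →
  |pr (circ (1 / 2)) (fun s => c * (1 + d * circ (1 / 2) s) * (1 + x s)) +
    2 * Real.pi * Real.log ‖c‖| ≤ 2 * Real.pi * (2 * η) ∧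
  ∀ μ : ℂ, pr (fun s => c * (1 + d * circ (1 / 2) s) * (1 + x s)) (fun _ => μ) = 0

/-- (TOR) loops in the curve from periodic families of points; `q` = the coordinates `x`, `y`,
`-x-y` -/
def S_TOR : Prop := ∀ (m : ℕ) (cls : Fin (m + 1) → Fin 3) (pos : Fin (m + 1) → ℤ) (lam : ℤ)
  (q : Fin 3 → ℝ → ℂ), (∀ k, ContDiff ℝ 2 (q k)) → (∀ k s, q k (s + 1) = q k s) →
  (∀ s, q 0 s + q 1 s + q 2 s = 0) → (∀ s, (lam : ℂ) * ∏ e, (q (cls e) s - (pos e : ℂ)) = 1) →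
  ∃ Γ : Torus (LR cls pos lam) 1,
    (∀ θ (y : ℚ), Γ.e θ (acst (lam : ℚ) 1 (fun _ => 0) (cf cls) (ps pos) y) = (y : ℂ)) ∧
    ∀ e f, Γ.reg (symb ![lu cls pos lam e, lu cls pos lam f]) =
      pr (fun s => q (cls e) s - (pos e : ℂ)) (fun s => q (cls f) s - (pos f : ℂ))

/-- The properties of the regulators `P s t = reg {L_s, L_t} / 2π` on the loop near the common
point of the lines `e`, `f`. -/
structure Loc {m : ℕ} (cls : Fin (m + 1) → Fin 3) (pos : Fin (m + 1) → ℤ) (ℓ τ : ℝ)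
    (e f : Fin (m + 1)) (P : Fin (m + 1) → Fin (m + 1) → ℝ) : Prop where
  anti : ∀ s t, P t s = -P s t
  sum : ∀ s, ∑ t, P s t = ℓ * (if s = e then 1 else if s = f then -1 else 0)
  small : ∀ s t, s ≠ e → s ≠ f → t ≠ e → t ≠ f → |P s t| ≤ τ
  main : ∀ t, t ≠ e → t ≠ f → |P e t + Real.log (del cls pos e f t : ℝ)| ≤ τ

/-- (LOC) the loops -/
def S_LOC : Prop := ∀ (m : ℕ) (cls : Fin (m + 1) → Fin 3) (pos : Fin (m + 1) → ℤ) (lam : ℤ),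
  Gen cls pos → 10 ^ 12 ≤ |lam| → ∀ e f, cls e ≠ cls f →
  ∃ (Γ : Torus (LR cls pos lam) 1) (P : Fin (m + 1) → Fin (m + 1) → ℝ),
    (∀ θ (y : ℚ), Γ.e θ (acst (lam : ℚ) 1 (fun _ => 0) (cf cls) (ps pos) y) = (y : ℂ)) ∧
    (∀ s t, Γ.reg (symb ![lu cls pos lam s, lu cls pos lam t]) = 2 * Real.pi * P s t) ∧
    Loc cls pos (Real.log |(lam : ℝ)|) (tau m lam) e f P

/-- (POS) positivity -/
def S_POS : Prop := ∀ (m : ℕ) (cls : Fin (m + 1) → Fin 3) (pos : Fin (m + 1) → ℤ),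
  Gen cls pos → ∀ (ℓ τ : ℝ) (P : Fin (m + 1) → Fin (m + 1) → Fin (m + 1) → Fin (m + 1) → ℝ),
  0 ≤ τ → 3 * τ * (m + 1) ^ 4 < ℓ → (∀ e f, cls e ≠ cls f → Loc cls pos ℓ τ e f (P e f)) →
  ∀ c : Fin (m + 1) → Fin (m + 1) → ℝ, Circ cls c →
    (∀ e f, cls e ≠ cls f → ∑ s, ∑ t, c s t * P e f s t = 0) → c = 0

/-- (NUM) -/
def S_NUM : Prop := ∀ (m : ℕ) (lam : ℤ), 10 ^ 12 ≤ |lam| →
  0 ≤ tau m lam ∧ 3 * tau m lam * (m + 1) ^ 4 < Real.log |(lam : ℝ)|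

/-- (CNT) a basis of the circulations: fundamental cycles of a spanning tree -/
def S_CNT : Prop := ∀ (m : ℕ) (cls : Fin (m + 1) → Fin 3), (∃ e f, cls e ≠ cls f) →
  ∃ (C : Fin (gen cls) → Fin (m + 1) → Fin (m + 1) → ℤ) (s t : Fin (gen cls) → Fin (m + 1)),
    (∀ j, Circ cls (C j)) ∧ ∀ i j, C j (s i) (t i) = if i = j then 1 else 0

/-- (DET) linear algebra -/
def S_DET : Prop := ∀ (g : ℕ) (I : Type) [Fintype I] (N : I → Fin g → ℝ),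
  (∀ x : Fin g → ℝ, (∀ i, ∑ j, N i j * x j = 0) → x = 0) →
  ∃ σ : Fin g → I, (Matrix.of fun a b => N (σ a) b).det ≠ 0

/-- the conclusion -/
def S_MAIN.{u} : Prop := ∀ (m : ℕ) (cls : Fin (m + 1) → Fin 3) (pos : Fin (m + 1) → ℤ) (lam : ℤ),
  Gen cls pos → 10 ^ 12 ≤ |lam| →
  IsDomain (LR cls pos lam) ∧
  (∀ x : Fin 2 → ℂ, MvPolynomial.eval₂ (algebraMap ℚ ℂ) x (leqn cls pos lam) = 0 →
    ∃ j, MvPolynomial.eval₂ (algebraMap ℚ ℂ) x (MvPolynomial.pderiv j (leqn cls pos lam)) ≠ 0) ∧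
  (∀ c, Circ cls c → ∀ (L : Type u) [Field L] (φ : LR cls pos lam →+* L),
    KQ.map 2 φ (cl cls pos lam c) ∈ Unramified L 2) ∧
  ∃ (C : Fin (gen cls) → Fin (m + 1) → Fin (m + 1) → ℤ)
    (Γ : Fin (gen cls) → Torus (LR cls pos lam) 1),
    (∀ j, Circ cls (C j)) ∧
    (∀ j θ (y : ℚ), (Γ j).e θ (acst (lam : ℚ) 1 (fun _ => 0) (cf cls) (ps pos) y) = (y : ℂ)) ∧
    (Matrix.of fun i j => (Γ i).reg (cl cls pos lam (C j))).det ≠ 0

end Pool.Agent.J4H48.LA
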