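import Pool.Agent.J4H48.LA.Stm2
import Pool.Agent.J4H48.LA.Num
set_option autoImplicit false

/-!
(NUM2): the numerical inequalities.
-/

namespace Pool.Agent.J4H48.LA

theorem pow_five_le2 (D : ℕ) (hD : 60 ≤ D) : D ^ 5 * 2 ^ 60 ≤ 60 ^ 5 * 2 ^ D := by
  induction D, hD using Nat.le_induction with
  | base => norm_num
  | succ n hn ih =>
    have h1 : (n + 1) ^ 5 ≤ 2 * n ^ 5 := by
      obtain ⟨k, rfl⟩ := Nat.exists_eq_add_of_le hn
      ring_nf
      nlinarith [Nat.zero_le (k ^ 5), Nat.zero_le (k ^ 4), Nat.zero_le (k ^ 3),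
        Nat.zero_le (k ^ 2), Nat.zero_le k]
    calc (n + 1) ^ 5 * 2 ^ 60 ≤ 2 * n ^ 5 * 2 ^ 60 := Nat.mul_le_mul_right _ h1
      _ = 2 * (n ^ 5 * 2 ^ 60) := by ring
      _ ≤ 2 * (60 ^ 5 * 2 ^ n) := Nat.mul_le_mul_left _ ih
      _ = 60 ^ 5 * 2 ^ (n + 1) := by ring

theorem lin_le2 (D : ℕ) (hD : 60 ≤ D) : D * 2 ^ 60 ≤ 60 * 2 ^ D := by
  induction D, hD using Nat.le_induction with
  | base => norm_num
  | succ n hn ih =>
    have h : (2 : ℕ) ^ (n + 1) = 2 * 2 ^ n := by ring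
    rw [h]
    nlinarith

theorem t_NUM2 : S_NUM2 := by
  intro m lam ⟨h0, hB⟩
  have hz1 : 1 ≤ |lam| := Int.one_le_abs h0
  have hl1 : (1 : ℝ) ≤ |(lam : ℝ)| := by exact_mod_cast hz1
  have hl0 : (0 : ℝ) < |(lam : ℝ)| := by linarith
  set D : ℕ := m + 1 with hD
  have hDm : (m : ℝ) = (D : ℝ) - 1 := by rw [hD]; push_cast; ring
  have h2 : (0 : ℝ) < 2 ^ D := by positivity
  have hDlt : (D : ℝ) ≤ 2 ^ D := by exact_mod_cast (Nat.lt_two_pow_self (n := D)).le
  have hK0 : (0 : ℝ) < |(lam : ℝ)| * 2 ^ D := by positivity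
  have hlog0 : 0 ≤ Real.log |(lam : ℝ)| := Real.log_nonneg hl1
  have hlog2 : (0.69 : ℝ) < Real.log 2 := by
    have := Real.log_two_gt_d9
    linarith
  -- `D * 10 ^ 12 ≤ |lam| 2 ^ D`
  have hA : (D : ℝ) * 10 ^ 12 ≤ |(lam : ℝ)| * 2 ^ D := by
    rcases hB with h | h
    · have h' : (10 : ℝ) ^ 12 ≤ |(lam : ℝ)| := by exact_mod_cast h
      calc (D : ℝ) * 10 ^ 12 ≤ 2 ^ D * |(lam : ℝ)| := by gcongr
        _ = _ := by ring
    · have h' : (10 : ℝ) ^ 18 ≤ |(lam : ℝ)| * 2 ^ D := by exact_mod_cast h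
      rcases le_total D 60 with h60 | h60
      · have h60' : (D : ℝ) ≤ 60 := by exact_mod_cast h60
        nlinarith
      · have h3 : (D : ℝ) * 2 ^ 60 ≤ 60 * 2 ^ D := by exact_mod_cast lin_le2 D h60
        have h4 : (2 : ℝ) ^ D ≤ |(lam : ℝ)| * 2 ^ D := by nlinarith
        nlinarith
  refine ⟨?_, ?_, by unfold tau; positivity, hlog0, ?_⟩
  · rw [mul_div_assoc', div_le_div_iff₀ hK0 (by positivity)]
    nlinarith
  · have hA' : (D : ℤ) * 10 ^ 12 ≤ |lam| * 2 ^ D := by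
      have h5 : ((((D : ℤ) * 10 ^ 12 : ℤ)) : ℝ) ≤ ((|lam| * 2 ^ D : ℤ) : ℝ) := by
        push_cast
        linarith [hA]
      exact_mod_cast h5
    have hD1 : (1 : ℤ) ≤ (D : ℤ) := by rw [hD]; push_cast; omega
    nlinarith
  · have h6 : 3 * tau m lam * ((m : ℝ) + 1) ^ 4 =
        3 * 10 ^ 9 * ((D : ℝ) ^ 5) / (|(lam : ℝ)| * 2 ^ D) := by
      unfold tau
      rw [hDm]
      field_simp
      ring
    rw [h6]
    have hmax0 : 0 ≤ Real.log 2 * max 0 ((m : ℝ) - 17) :=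
      mul_nonneg (by linarith) (le_max_left _ _)
    rcases hB with h | h
    · have h' : (10 : ℝ) ^ 12 ≤ |(lam : ℝ)| := by exact_mod_cast h
      have hlog : 1 ≤ Real.log |(lam : ℝ)| := by
        rw [Real.le_log_iff_exp_le hl0]
        have := Real.exp_one_lt_d9
        linarith [show (3 : ℝ) < 10 ^ 12 by norm_num]
      refine lt_of_lt_of_le ?_ (by linarith : (1 : ℝ) ≤ _)
      rw [div_lt_one hK0]
      have h5 := pow_five_le D
      calc 3 * 10 ^ 9 * ((D : ℝ) ^ 5) ≤ 3 * 10 ^ 9 * (132 * 2 ^ D) := by gcongr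
        _ < 10 ^ 12 * 2 ^ D := by nlinarith
        _ ≤ |(lam : ℝ)| * 2 ^ D := by gcongr
    · have h' : (10 : ℝ) ^ 18 ≤ |(lam : ℝ)| * 2 ^ D := by exact_mod_cast h
      rcases lt_or_ge D 19 with h19 | h19
      · -- `|lam|` is large
        have h7 : (2 : ℝ) ^ D ≤ 2 ^ 18 := pow_le_pow_right₀ (by norm_num) (by omega)
        have h8 : (3 : ℝ) ≤ |(lam : ℝ)| := by
          by_contra hc
          push Not at hc
          nlinarith
        have hlog : 1 ≤ Real.log |(lam : ℝ)| := by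
          rw [Real.le_log_iff_exp_le hl0]
          have := Real.exp_one_lt_d9
          linarith
        refine lt_of_lt_of_le ?_ (by linarith : (1 : ℝ) ≤ _)
        rw [div_lt_one hK0]
        have h9 : (D : ℝ) ≤ 18 := by exact_mod_cast (by omega : D ≤ 18)
        have h10 : (D : ℝ) ^ 5 ≤ 18 ^ 5 := by gcongr
        nlinarith
      · have h19' : (19 : ℝ) ≤ (D : ℝ) := by exact_mod_cast h19
        have hm17 : (m : ℝ) - 17 = (D : ℝ) - 18 := by rw [hDm]; ring
        have hmx : Real.log 2 * ((D : ℝ) - 18) ≤ Real.log 2 * max 0 ((m : ℝ) - 17) := by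
          rw [hm17]
          exact mul_le_mul_of_nonneg_left (le_max_right _ _) (by linarith)
        have hlow : 0.69 * ((D : ℝ) - 18) ≤ Real.log |(lam : ℝ)| +
            Real.log 2 * max 0 ((m : ℝ) - 17) := by nlinarith
        refine lt_of_lt_of_le ?_ hlow
        rw [div_lt_iff₀ hK0]
        rcases le_total D 60 with h60 | h60
        · have h60' : (D : ℝ) ≤ 60 := by exact_mod_cast h60
          have key : 3 * 10 ^ 9 * ((D : ℝ) ^ 5) < 0.69 * ((D : ℝ) - 18) * 10 ^ 18 := by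
            rcases le_total D 46 with h46 | h46
            · have h46' : (D : ℝ) ≤ 46 := by exact_mod_cast h46
              have h11 : (D : ℝ) ^ 5 ≤ 46 ^ 5 := by gcongr
              nlinarith
            · have h46' : (46 : ℝ) ≤ (D : ℝ) := by exact_mod_cast h46
              have h11 : (D : ℝ) ^ 5 ≤ 60 ^ 5 := by gcongr
              nlinarith
          refine key.trans_le ?_
          have h12 : 0 ≤ 0.69 * ((D : ℝ) - 18) := by nlinarith
          exact mul_le_mul_of_nonneg_left h' h12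
        · have h60' : (60 : ℝ) ≤ (D : ℝ) := by exact_mod_cast h60
          have h13 : (D : ℝ) ^ 5 * 2 ^ 60 ≤ 60 ^ 5 * 2 ^ D := by
            exact_mod_cast pow_five_le2 D h60
          have h4 : (2 : ℝ) ^ D ≤ |(lam : ℝ)| * 2 ^ D := by nlinarith
          have h14 : 3 * 10 ^ 9 * ((D : ℝ) ^ 5) < 28 * 2 ^ D := by nlinarith
          nlinarith

end Pool.Agent.J4H48.LA
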