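import Pool.Agent.J4H48.LA.Main2
import Pool.Agent.J4H48.LA.Dom
import Pool.Agent.J4H48.LA.Unr
import Pool.Agent.J4H48.LA.Num2
import Pool.Agent.J4H97.LA.Gro
import Pool.Agent.J4H97.LA.Cen2
import Pool.Agent.J4H3.LA.Fix
import Pool.Agent.J4H55.LA.Smo2
import Pool.Agent.J4H54.LA.E1
import Pool.Agent.J4H57.LA.Bra2
import Pool.Agent.J4H62.LA.Loc2
import Pool.Agent.J4H91.LA.Cnt
set_option autoImplicit false

/-!
The main statement from the pieces.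
-/

namespace Pool.Agent.J4H48.LA

theorem t_ALL2.{u} (hP : S_POS2) : S_MAIN2.{u} :=
  t_MAIN2.{u} t_DOM (Pool.Agent.J4H55.LA.t_SMO2 Pool.Agent.J4H97.LA.t_CEN2) t_UNR.{u}
    (Pool.Agent.J4H62.LA.t_LOC2
      (Pool.Agent.J4H57.LA.t_BRA2 Pool.Agent.J4H3.LA.t_FIX Pool.Agent.J4H97.LA.t_GRO)
      Pool.Agent.J4H54.LA.t_E1 Pool.Agent.J4H54.LA.t_E2 t_TOR)
    hP t_NUM2 Pool.Agent.J4H91.LA.t_CNT Pool.Agent.J4H91.LA.t_DET

end Pool.Agent.J4H48.LA
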