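import Pool.Agent.J4H48.LA.All2
import Pool.Agent.J4H87.LA.Pos2
set_option autoImplicit false

/-!
The main statement, version 2.
-/

namespace Pool.Agent.J4H48.LA

theorem t_FIN2.{u} : S_MAIN2.{u} := t_ALL2.{u} Pool.Agent.J4H87.LA.t_POS2

end Pool.Agent.J4H48.LA
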