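import Pool.Agent.J4H48.LA.Stm2
import Pool.Agent.J4H48.LA.Main
set_option autoImplicit false

/-!
(MAIN2): assembly.
-/

namespace Pool.Agent.J4H48.LA

open Pool.Agent.TH826.MK (KQ symb Unramified unitPart Torus circ)

open Pool.Agent.TH577.UA (ARing aeqn au acst)

theorem t_MAIN2.{u} : S_DOM → S_SMO2 → S_UNR.{u} → S_LOC2 → S_POS2 → S_NUM2 → S_CNT → S_DET →
    S_MAIN2.{u} := by
  intro hDOM hSMO hUNR hLOC hPOS hNUM hCNT hDET m cls pos lam hG hlam
  have hlam0 : lam ≠ 0 := hlam.1
  obtain ⟨hn0, h92, hn1, hn3, hn2⟩ := hNUM m lam hlam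
  refine ⟨hDOM m cls pos lam hG hlam0, hSMO m cls pos lam hG h92,
    fun c hc L _ φ => hUNR m cls pos lam hlam0 c hc L φ, ?_⟩
  obtain ⟨C, s, t, hC, hst⟩ := hCNT m cls hG.two
  have hL := fun i : {x : Fin (m + 1) × Fin (m + 1) // cls x.1 ≠ cls x.2} =>
    hLOC m cls pos lam hG hlam0 hn0 i.1.1 i.1.2 i.2
  choose Γ P h1 h2 h3 using hL
  classical
  obtain ⟨σ, hσ⟩ := hDET (gen cls) {x : Fin (m + 1) × Fin (m + 1) // cls x.1 ≠ cls x.2}
    (fun i j => (Γ i).reg (cl cls pos lam (C j))) (by
      intro x hx
      set c : Fin (m + 1) → Fin (m + 1) → ℝ := fun e f => ∑ j, x j * (C j e f : ℝ) with hcdef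
      have hc : Circ cls c := by
        refine ⟨fun e f => ?_, fun e f hef => ?_, fun e => ?_⟩
        · simp only [hcdef]
          rw [← Finset.sum_neg_distrib]
          refine Finset.sum_congr rfl fun j _ => ?_
          rw [(hC j).anti e f]
          push_cast
          ring
        · simp only [hcdef]
          refine Finset.sum_eq_zero fun j _ => ?_
          rw [(hC j).same e f hef]
          simp
        · simp only [hcdef]
          rw [Finset.sum_comm]
          refine Finset.sum_eq_zero fun j _ => ?_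
          rw [← Finset.mul_sum, ← Int.cast_sum, (hC j).flow e]
          simp
      have hc0 : c = 0 := by
        refine hPOS m cls pos hG (Real.log |(lam : ℝ)|) (tau m lam)
          (fun e f => if h : cls e ≠ cls f then P ⟨(e, f), h⟩ else fun _ _ => 0) hn3 hn1 hn2
          (fun e f hef => ?_) c hc (fun e f hef => ?_)
        · rw [dif_pos hef]
          exact h3 ⟨(e, f), hef⟩
        · simp only [dif_pos hef]
          have h4 := hx ⟨(e, f), hef⟩
          simp only [reg_cl (Γ ⟨(e, f), hef⟩) (h2 ⟨(e, f), hef⟩)] at h4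
          have h5 : ∑ j, 2 * Real.pi * (∑ s, ∑ t, (C j s t : ℝ) * P ⟨(e, f), hef⟩ s t) * x j =
              2 * Real.pi * ∑ s, ∑ t, c s t * P ⟨(e, f), hef⟩ s t := by
            simp only [hcdef, Finset.sum_mul, Finset.mul_sum]
            rw [Finset.sum_comm]
            refine Finset.sum_congr rfl fun s _ => ?_
            rw [Finset.sum_comm]
            refine Finset.sum_congr rfl fun t _ => ?_
            refine Finset.sum_congr rfl fun j _ => ?_
            ring
          rw [h5] at h4
          have h6 : (2 * Real.pi) ≠ 0 := by positivity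
          exact (mul_eq_zero.1 h4).resolve_left h6
      funext i
      have h7 : c (s i) (t i) = 0 := by rw [hc0]; rfl
      simp only [hcdef, hst] at h7
      simpa using h7)
  exact ⟨C, fun j => Γ (σ j), hC, fun j => h1 (σ j), hσ⟩

end Pool.Agent.J4H48.LA
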