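import Pool.Agent.J4H48.LA.Stm3
import Pool.Agent.J4H48.LA.Main
import Pool.Agent.J4H48.LA.Dom
import Pool.Agent.J4H48.LA.Num2
set_option autoImplicit false

/-!
(DOM3), (NUM3), (MAIN3).
-/

namespace Pool.Agent.J4H48.LA

open Pool.Agent.TH826.MK (KQ symb Unramified unitPart Torus circ)

open Pool.Agent.TH577.UA

open Pool.Agent.TH826.GA (cm)

theorem distinct3 {m : ℕ} {cls : Fin (m + 1) → Fin 3} {pos : Fin (m + 1) → ℤ}
    (hG : Lines cls pos) : Distinct (cf cls) (ps pos) := by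
  rintro e f hef κ ⟨h1, h2⟩
  obtain ⟨h3, h4⟩ := dir_prop h1
  apply hef
  refine hG.inj e f h3 ?_
  unfold ps at h2
  rw [h4, one_mul] at h2
  exact_mod_cast h2

theorem t_DOM3 : S_DOM3 := by
  intro m cls pos lam hG hlam
  have h0 : ((lam : ℚ)) ≠ 0 := Int.cast_ne_zero.2 hlam
  obtain ⟨e, f, hef⟩ := hG.two
  have hR : ∃ T : Fin 2 → Fin (m + 1), (cm (cf cls) T).det ≠ 0 := by
    refine ⟨![e, f], ?_⟩
    rw [Matrix.det_fin_two]
    exact dir_det hef
  exact isDomain_ARing (d := 0) (w := fun _ => 0) (e0 := 0) hR (distinct3 hG)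
    (dir_ne (cls 0)) rfl h0

theorem t_NUM3 : S_NUM3 := by
  intro m lam hBig
  obtain ⟨hn0, h5, -, hlog0, -⟩ := t_NUM2 m lam hBig
  obtain ⟨h0, hB⟩ := hBig
  have hz1 : 1 ≤ |lam| := Int.one_le_abs h0
  have hl1 : (1 : ℝ) ≤ |(lam : ℝ)| := by exact_mod_cast hz1
  have hl0 : (0 : ℝ) < |(lam : ℝ)| := by linarith
  refine ⟨?_, h5, by unfold tau3; positivity, hlog0, ?_⟩
  · have h1 : ((m + 1 : ℕ) : ℝ) * (10 ^ 7 / (|(lam : ℝ)| * 2 ^ (m + 1))) =
        10 * (((m + 1 : ℕ) : ℝ) * (10 ^ 6 / (|(lam : ℝ)| * 2 ^ (m + 1)))) := by ring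
    rw [h1]
    linarith
  set D : ℕ := m + 1 with hD
  have hDm : (m : ℝ) = (D : ℝ) - 1 := by rw [hD]; push_cast; ring
  have h2 : (0 : ℝ) < 2 ^ D := by positivity
  have hK0 : (0 : ℝ) < |(lam : ℝ)| * 2 ^ D := by positivity
  have hlog2 : (0.69 : ℝ) < Real.log 2 := by
    have := Real.log_two_gt_d9
    linarith
  have h6 : 3 * tau3 m lam * ((m : ℝ) + 1) ^ 4 =
      3 * 10 ^ 10 * ((D : ℝ) ^ 5) / (|(lam : ℝ)| * 2 ^ D) := by
    unfold tau3
    rw [hDm]
    field_simp
    ring
  rw [h6]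
  have hmax0 : 0 ≤ Real.log 2 * max 0 ((m : ℝ) - 17) :=
    mul_nonneg (by linarith) (le_max_left _ _)
  have hbig : ∀ x : ℝ, 10 ^ 12 ≤ x → 4 ≤ Real.log x := by
    intro x hx
    have hx0 : (0 : ℝ) < x := by linarith [show (0 : ℝ) < 10 ^ 12 by norm_num]
    rw [Real.le_log_iff_exp_le hx0]
    have h7 := Real.exp_one_lt_d9
    have h8 : Real.exp 4 = Real.exp 1 ^ 4 := by
      rw [← Real.exp_nat_mul]
      norm_num
    have h9 : Real.exp 1 ^ 4 ≤ 3 ^ 4 := by
      have := Real.exp_pos 1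
      gcongr
      linarith
    rw [h8]
    linarith [show (3 : ℝ) ^ 4 < 10 ^ 12 by norm_num]
  rcases hB with h | h
  · have h' : (10 : ℝ) ^ 12 ≤ |(lam : ℝ)| := by exact_mod_cast h
    have hlog := hbig _ h'
    refine lt_of_lt_of_le ?_ (by linarith : (4 : ℝ) ≤ _)
    rw [div_lt_iff₀ hK0]
    have h5 := pow_five_le D
    calc 3 * 10 ^ 10 * ((D : ℝ) ^ 5) ≤ 3 * 10 ^ 10 * (132 * 2 ^ D) := by gcongr
      _ < 4 * (10 ^ 12 * 2 ^ D) := by nlinarith
      _ ≤ 4 * (|(lam : ℝ)| * 2 ^ D) := by gcongr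
  · have h' : (10 : ℝ) ^ 18 ≤ |(lam : ℝ)| * 2 ^ D := by exact_mod_cast h
    rcases lt_or_ge D 19 with h19 | h19
    · have h7 : (2 : ℝ) ^ D ≤ 2 ^ 18 := pow_le_pow_right₀ (by norm_num) (by omega)
      have h8 : (10 : ℝ) ^ 12 ≤ |(lam : ℝ)| := by
        by_contra hc
        push Not at hc
        nlinarith
      have hlog := hbig _ h8
      refine lt_of_lt_of_le ?_ (by linarith : (4 : ℝ) ≤ _)
      rw [div_lt_iff₀ hK0]
      have h9 : (D : ℝ) ≤ 18 := by exact_mod_cast (by omega : D ≤ 18)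
      have h10 : (D : ℝ) ^ 5 ≤ 18 ^ 5 := by gcongr
      nlinarith
    · have h19' : (19 : ℝ) ≤ (D : ℝ) := by exact_mod_cast h19
      have hm17 : (m : ℝ) - 17 = (D : ℝ) - 18 := by rw [hDm]; ring
      have hmx : Real.log 2 * ((D : ℝ) - 18) ≤ Real.log 2 * max 0 ((m : ℝ) - 17) := by
        rw [hm17]
        exact mul_le_mul_of_nonneg_left (le_max_right _ _) (by linarith)
      have hlow : 0.69 * ((D : ℝ) - 18) ≤ Real.log |(lam : ℝ)| +
          Real.log 2 * max 0 ((m : ℝ) - 17) := by nlinarith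
      refine lt_of_lt_of_le ?_ hlow
      rw [div_lt_iff₀ hK0]
      have h12 : 0 ≤ 0.69 * ((D : ℝ) - 18) := by nlinarith
      rcases le_total D 60 with h60 | h60
      · have h60' : (D : ℝ) ≤ 60 := by exact_mod_cast h60
        have key : 3 * 10 ^ 10 * ((D : ℝ) ^ 5) < 0.69 * ((D : ℝ) - 18) * 10 ^ 18 := by
          rcases le_total D 28 with h28 | h28
          · have h28' : (D : ℝ) ≤ 28 := by exact_mod_cast h28
            have h11 : (D : ℝ) ^ 5 ≤ 28 ^ 5 := by gcongr
            nlinarith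
          · have h28' : (28 : ℝ) ≤ (D : ℝ) := by exact_mod_cast h28
            rcases le_total D 46 with h46 | h46
            · have h46' : (D : ℝ) ≤ 46 := by exact_mod_cast h46
              have h11 : (D : ℝ) ^ 5 ≤ 46 ^ 5 := by gcongr
              nlinarith
            · have h46' : (46 : ℝ) ≤ (D : ℝ) := by exact_mod_cast h46
              rcases le_total D 55 with h55 | h55
              · have h55' : (D : ℝ) ≤ 55 := by exact_mod_cast h55
                have h11 : (D : ℝ) ^ 5 ≤ 55 ^ 5 := by gcongr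
                nlinarith
              · have h55' : (55 : ℝ) ≤ (D : ℝ) := by exact_mod_cast h55
                have h11 : (D : ℝ) ^ 5 ≤ 60 ^ 5 := by gcongr
                nlinarith
        exact key.trans_le (mul_le_mul_of_nonneg_left h' h12)
      · have h60' : (60 : ℝ) ≤ (D : ℝ) := by exact_mod_cast h60
        have h13 : (D : ℝ) ^ 5 * 2 ^ 60 ≤ 60 ^ 5 * 2 ^ D := by
          exact_mod_cast pow_five_le2 D h60
        have h4 : (2 : ℝ) ^ D ≤ |(lam : ℝ)| * 2 ^ D := by nlinarith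
        have h14 : 3 * 10 ^ 10 * ((D : ℝ) ^ 5) < 28 * 2 ^ D := by nlinarith
        nlinarith

theorem t_MAIN3.{u} : S_SMO3 → S_UNR.{u} → S_LOC3 → S_POS3 → S_CNT3 → S_DET →
    S_MAIN3.{u} := by
  intro hSMO hUNR hLOC hPOS hCNT hDET m cls pos lam hG hlam
  have hlam0 : lam ≠ 0 := hlam.1
  obtain ⟨hn0, h92, hn1, hn3, hn2⟩ := t_NUM3 m lam hlam
  refine ⟨t_DOM3 m cls pos lam hG hlam0, hSMO m cls pos lam hG h92,
    fun c hc L _ φ => hUNR m cls pos lam hlam0 c hc L φ, ?_⟩
  obtain ⟨C, hC, hind⟩ := hCNT m cls pos hG.two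
  have hL := fun i : {x : Fin (m + 1) × Fin (m + 1) // cls x.1 ≠ cls x.2} =>
    hLOC m cls pos lam hG hlam0 hn0 i.1.1 i.1.2 i.2
  choose Γ P h2 h3 using hL
  classical
  obtain ⟨σ, hσ⟩ := hDET (gen cls - trip cls pos)
    {x : Fin (m + 1) × Fin (m + 1) // cls x.1 ≠ cls x.2}
    (fun i j => (Γ i).reg (cl cls pos lam (C j))) (by
      intro x hx
      set c : Fin (m + 1) → Fin (m + 1) → ℝ := fun e f => ∑ j, x j * (C j e f : ℝ) with hcdef
      have hc : CircT cls pos c := by
        refine ⟨⟨fun e f => ?_, fun e f hef => ?_, fun e => ?_⟩, fun e f t ht => ?_⟩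
        · simp only [hcdef]
          rw [← Finset.sum_neg_distrib]
          refine Finset.sum_congr rfl fun j _ => ?_
          rw [(hC j).circ.anti e f]
          push_cast
          ring
        · simp only [hcdef]
          refine Finset.sum_eq_zero fun j _ => ?_
          rw [(hC j).circ.same e f hef]
          simp
        · simp only [hcdef]
          rw [Finset.sum_comm]
          refine Finset.sum_eq_zero fun j _ => ?_
          rw [← Finset.mul_sum, ← Int.cast_sum, (hC j).circ.flow e]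
          simp
        · simp only [hcdef]
          rw [← Finset.sum_add_distrib, ← Finset.sum_add_distrib]
          refine Finset.sum_eq_zero fun j _ => ?_
          have h4 : ((C j e f : ℝ)) + (C j f t : ℝ) + (C j t e : ℝ) = 0 := by
            exact_mod_cast (hC j).tri e f t ht
          linear_combination (x j) * h4
      have hc0 : c = 0 := by
        refine hPOS m cls pos hG (Real.log |(lam : ℝ)|) (tau3 m lam)
          (fun e f => if h : cls e ≠ cls f then P ⟨(e, f), h⟩ else fun _ _ => 0) hn3 hn1 hn2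
          (fun e f hef => ?_) c hc (fun e f hef => ?_)
        · rw [dif_pos hef]
          exact h3 ⟨(e, f), hef⟩
        · simp only [dif_pos hef]
          have h4 := hx ⟨(e, f), hef⟩
          simp only [reg_cl (Γ ⟨(e, f), hef⟩) (h2 ⟨(e, f), hef⟩)] at h4
          have h5 : ∑ j, 2 * Real.pi * (∑ s, ∑ t, (C j s t : ℝ) * P ⟨(e, f), hef⟩ s t) * x j =
              2 * Real.pi * ∑ s, ∑ t, c s t * P ⟨(e, f), hef⟩ s t := by
            simp only [hcdef, Finset.sum_mul, Finset.mul_sum]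
            rw [Finset.sum_comm]
            refine Finset.sum_congr rfl fun s _ => ?_
            rw [Finset.sum_comm]
            refine Finset.sum_congr rfl fun t _ => ?_
            refine Finset.sum_congr rfl fun j _ => ?_
            ring
          rw [h5] at h4
          have h6 : (2 * Real.pi) ≠ 0 := by positivity
          exact (mul_eq_zero.1 h4).resolve_left h6
      refine hind x fun e f => ?_
      exact congrFun (congrFun hc0 e) f)
  exact ⟨C, fun j => Γ (σ j), fun j => (hC j).circ, hσ⟩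

end Pool.Agent.J4H48.LA
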