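import Pool.Agent.J4H48.LA.Stm
set_option autoImplicit false

/-!
Version 2: all integers `λ ≠ 0` for many lines (`n ≥ 60`): exact statements.
-/

namespace Pool.Agent.J4H48.LA

open Pool.Agent.TH826.MK (KQ symb Unramified unitPart Torus circ)

open Pool.Agent.TH577.UA (ARing aeqn au acst)

/-- `λ ≠ 0`, and `|λ| ≥ 10 ^ 12` or `|λ| 2 ^ n ≥ 10 ^ 18`, where `n = m + 1` is the number of
lines. The second condition holds for all `λ ≠ 0` if `n ≥ 60`. -/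
def Big (m : ℕ) (lam : ℤ) : Prop :=
  lam ≠ 0 ∧ (10 ^ 12 ≤ |lam| ∨ 10 ^ 18 ≤ |lam| * 2 ^ (m + 1))

/-- (BRA2) as `S_BRA` -/
def S_BRA2 : Prop := ∀ (A B C : Finset ℤ) (μ : ℂ) (n : ℕ), (0 : ℤ) ∉ A → (0 : ℤ) ∉ B →
  (0 : ℤ) ∉ C → n = A.card + B.card + C.card + 2 → μ ≠ 0 →
  (n : ℝ) * (10 ^ 6 / (‖μ‖ * 2 ^ n)) ≤ 1 / 10 ^ 6 →
  ∃ V : ℝ → ℂ, ContDiff ℝ 2 V ∧ (∀ s, V (s + 1) = V s) ∧
    (∀ s, μ * (circ (1 / 2) s * V s * (∏ α ∈ A, (circ (1 / 2) s + (α : ℂ))) *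
      (∏ β ∈ B, (V s + (β : ℂ))) * ∏ γ ∈ C, (circ (1 / 2) s + V s + (γ : ℂ))) = 1) ∧
    (∀ s, ‖V s‖ ≤ 10 ^ 6 / (‖μ‖ * 2 ^ n)) ∧
    ∀ s, ‖deriv V s‖ ≤ 10 * n * (10 ^ 6 / (‖μ‖ * 2 ^ n))

/-- (LOC2) as `S_LOC` -/
def S_LOC2 : Prop := ∀ (m : ℕ) (cls : Fin (m + 1) → Fin 3) (pos : Fin (m + 1) → ℤ) (lam : ℤ),
  Gen cls pos → lam ≠ 0 →
  ((m + 1 : ℕ) : ℝ) * (10 ^ 6 / (|(lam : ℝ)| * 2 ^ (m + 1))) ≤ 1 / 10 ^ 6 →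
  ∀ e f, cls e ≠ cls f →
  ∃ (Γ : Torus (LR cls pos lam) 1) (P : Fin (m + 1) → Fin (m + 1) → ℝ),
    (∀ θ (y : ℚ), Γ.e θ (acst (lam : ℚ) 1 (fun _ => 0) (cf cls) (ps pos) y) = (y : ℂ)) ∧
    (∀ s t, Γ.reg (symb ![lu cls pos lam s, lu cls pos lam t]) = 2 * Real.pi * P s t) ∧
    Loc cls pos (Real.log |(lam : ℝ)|) (tau m lam) e f P

/-- (CEN2) as `S_CEN`: `∏ |X - a| ≥ 5/162 2 ^ N` for `N` different integers `a`, `X = i + 1/3` or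
`i + 2/3` -/
def S_CEN2 : Prop := ∀ (m : ℕ) (cls : Fin (m + 1) → Fin 3) (pos : Fin (m + 1) → ℤ)
  (q : Fin 3 → ℝ) (S : ℝ), (∀ e f, cls e = cls f → pos e = pos f → e = f) →
  q 0 + q 1 + q 2 = 0 → (∀ e, q (cls e) - pos e ≠ 0) →
  (∀ k, ∑ e ∈ Finset.univ.filter (fun e => cls e = k), 1 / (q k - pos e) = S) →
  (5 / 162 : ℝ) ^ 3 * 2 ^ (m + 1) ≤ ∏ e, |q (cls e) - pos e|

/-- (SMO2) as `S_SMO` -/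
def S_SMO2 : Prop := ∀ (m : ℕ) (cls : Fin (m + 1) → Fin 3) (pos : Fin (m + 1) → ℤ) (lam : ℤ),
  Gen cls pos → 10 ^ 5 ≤ |lam| * 2 ^ (m + 1) → ∀ x : Fin 2 → ℂ,
    MvPolynomial.eval₂ (algebraMap ℚ ℂ) x (leqn cls pos lam) = 0 →
    ∃ j, MvPolynomial.eval₂ (algebraMap ℚ ℂ) x (MvPolynomial.pderiv j (leqn cls pos lam)) ≠ 0

/-- (POS2) as `S_POS`: the weights are at least `log 2` up to at most six lines `t` for every pair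
`e`, `f`, and `∑ (dc) ^ 2 = 3 n ∑ c ^ 2` for circulations; `n - 18 = m - 17` -/
def S_POS2 : Prop := ∀ (m : ℕ) (cls : Fin (m + 1) → Fin 3) (pos : Fin (m + 1) → ℤ),
  Gen cls pos → ∀ (ℓ τ : ℝ) (P : Fin (m + 1) → Fin (m + 1) → Fin (m + 1) → Fin (m + 1) → ℝ),
  0 ≤ ℓ → 0 ≤ τ → 3 * τ * (m + 1) ^ 4 < ℓ + Real.log 2 * max 0 ((m : ℝ) - 17) →
  (∀ e f, cls e ≠ cls f → Loc cls pos ℓ τ e f (P e f)) →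
  ∀ c : Fin (m + 1) → Fin (m + 1) → ℝ, Circ cls c →
    (∀ e f, cls e ≠ cls f → ∑ s, ∑ t, c s t * P e f s t = 0) → c = 0

/-- (NUM2) -/
def S_NUM2 : Prop := ∀ (m : ℕ) (lam : ℤ), Big m lam →
  ((m + 1 : ℕ) : ℝ) * (10 ^ 6 / (|(lam : ℝ)| * 2 ^ (m + 1))) ≤ 1 / 10 ^ 6 ∧
  10 ^ 5 ≤ |lam| * 2 ^ (m + 1) ∧ 0 ≤ tau m lam ∧ 0 ≤ Real.log |(lam : ℝ)| ∧
  3 * tau m lam * (m + 1) ^ 4 < Real.log |(lam : ℝ)| + Real.log 2 * max 0 ((m : ℝ) - 17)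

/-- the conclusion -/
def S_MAIN2.{u} : Prop := ∀ (m : ℕ) (cls : Fin (m + 1) → Fin 3) (pos : Fin (m + 1) → ℤ)
  (lam : ℤ), Gen cls pos → Big m lam →
  IsDomain (LR cls pos lam) ∧
  (∀ x : Fin 2 → ℂ, MvPolynomial.eval₂ (algebraMap ℚ ℂ) x (leqn cls pos lam) = 0 →
    ∃ j, MvPolynomial.eval₂ (algebraMap ℚ ℂ) x (MvPolynomial.pderiv j (leqn cls pos lam)) ≠ 0) ∧
  (∀ c, Circ cls c → ∀ (L : Type u) [Field L] (φ : LR cls pos lam →+* L),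
    KQ.map 2 φ (cl cls pos lam c) ∈ Unramified L 2) ∧
  ∃ (C : Fin (gen cls) → Fin (m + 1) → Fin (m + 1) → ℤ)
    (Γ : Fin (gen cls) → Torus (LR cls pos lam) 1),
    (∀ j, Circ cls (C j)) ∧
    (∀ j θ (y : ℚ), (Γ j).e θ (acst (lam : ℚ) 1 (fun _ => 0) (cf cls) (ps pos) y) = (y : ℂ)) ∧
    (Matrix.of fun i j => (Γ i).reg (cl cls pos lam (C j))).det ≠ 0

end Pool.Agent.J4H48.LA
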