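import Pool.Agent.J4H48.LA.Stm2
set_option autoImplicit false

/-!
Version 3: concurrent lines are admitted: exact statements.
-/

namespace Pool.Agent.J4H48.LA

open Pool.Agent.TH826.MK (KQ symb Unramified unitPart Torus circ)

open Pool.Agent.TH577.UA (ARing aeqn au acst)

section defs

variable {m : ℕ} (cls : Fin (m + 1) → Fin 3) (pos : Fin (m + 1) → ℤ)

/-- The lines are different, and not all of them are parallel. -/
structure Lines : Prop where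
  inj : ∀ e f, cls e = cls f → pos e = pos f → e = f
  two : ∃ e f, cls e ≠ cls f

/-- The three lines have a common point. -/
def Conc (e f t : Fin (m + 1)) : Prop :=
  cls e ≠ cls f ∧ cls f ≠ cls t ∧ cls t ≠ cls e ∧ pos e + pos f + pos t = 0

/-- Circulations whose sum around every three concurrent lines is zero. -/
structure CircT {R : Type*} [AddCommGroup R] (c : Fin (m + 1) → Fin (m + 1) → R) : Prop where
  circ : Circ cls c
  tri : ∀ e f t, Conc cls pos e f t → c e f + c f t + c t e = 0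

/-- The number of the triple points. -/
def trip : ℕ :=
  (Finset.univ.filter fun x : Fin (m + 1) × Fin (m + 1) × Fin (m + 1) =>
    cls x.1 = 0 ∧ cls x.2.1 = 1 ∧ cls x.2.2 = 2 ∧ pos x.1 + pos x.2.1 + pos x.2.2 = 0).card

end defs

/-- the error: `10 ^ 10 n / (|λ| 2 ^ n)`, `n` lines -/
noncomputable def tau3 (m : ℕ) (lam : ℤ) : ℝ :=
  10 ^ 10 * (m + 1) / (|(lam : ℝ)| * 2 ^ (m + 1))

/-- (DOM3) as `t_DOM` -/
def S_DOM3 : Prop := ∀ (m : ℕ) (cls : Fin (m + 1) → Fin 3) (pos : Fin (m + 1) → ℤ) (lam : ℤ),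
  Lines cls pos → lam ≠ 0 → IsDomain (LR cls pos lam)

/-- (SMO3) as `S_SMO2`, from `S_CEN2` -/
def S_SMO3 : Prop := ∀ (m : ℕ) (cls : Fin (m + 1) → Fin 3) (pos : Fin (m + 1) → ℤ) (lam : ℤ),
  Lines cls pos → 10 ^ 5 ≤ |lam| * 2 ^ (m + 1) → ∀ x : Fin 2 → ℂ,
    MvPolynomial.eval₂ (algebraMap ℚ ℂ) x (leqn cls pos lam) = 0 →
    ∃ j, MvPolynomial.eval₂ (algebraMap ℚ ℂ) x (MvPolynomial.pderiv j (leqn cls pos lam)) ≠ 0

/-- (BRA3) as `S_BRA2`, with `0 ∈ C` allowed: `|U + V| ≥ 1/2 - κ` -/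
def S_BRA3 : Prop := ∀ (A B C : Finset ℤ) (μ : ℂ) (n : ℕ), (0 : ℤ) ∉ A → (0 : ℤ) ∉ B →
  n = A.card + B.card + C.card + 2 → μ ≠ 0 →
  (n : ℝ) * (10 ^ 7 / (‖μ‖ * 2 ^ n)) ≤ 1 / 10 ^ 5 →
  ∃ V : ℝ → ℂ, ContDiff ℝ 2 V ∧ (∀ s, V (s + 1) = V s) ∧
    (∀ s, μ * (circ (1 / 2) s * V s * (∏ α ∈ A, (circ (1 / 2) s + (α : ℂ))) *
      (∏ β ∈ B, (V s + (β : ℂ))) * ∏ γ ∈ C, (circ (1 / 2) s + V s + (γ : ℂ))) = 1) ∧
    (∀ s, ‖V s‖ ≤ 10 ^ 7 / (‖μ‖ * 2 ^ n)) ∧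
    ∀ s, ‖deriv V s‖ ≤ 10 * n * (10 ^ 7 / (‖μ‖ * 2 ^ n))

/-- The properties of the regulators `P s t = reg {L_s, L_t} / 2π` on the loop near the common
point of the lines `e`, `f`, on which `L_f` is very small, and `L_e` and the third line through the
point (if there is one) are on the circle of radius `1/2` (the third one nearly). -/
structure Loc3 {m : ℕ} (cls : Fin (m + 1) → Fin 3) (pos : Fin (m + 1) → ℤ) (ℓ τ : ℝ)
    (e f : Fin (m + 1)) (P : Fin (m + 1) → Fin (m + 1) → ℝ) : Prop where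
  anti : ∀ s t, P t s = -P s t
  sume : ∑ t, P e t = ℓ
  sumt : ∀ s, Conc cls pos e f s → ∑ t, P s t = ℓ
  sum : ∀ s, s ≠ e → s ≠ f → ¬ Conc cls pos e f s → ∑ t, P s t = 0
  small : ∀ s t, s ≠ e → s ≠ f → ¬ Conc cls pos e f s → t ≠ e → t ≠ f →
    ¬ Conc cls pos e f t → |P s t| ≤ τ
  main : ∀ t, t ≠ e → t ≠ f → ¬ Conc cls pos e f t →
    |P e t + Real.log (del cls pos e f t : ℝ)| ≤ τ
  maint : ∀ s t, Conc cls pos e f s → t ≠ e → t ≠ f → ¬ Conc cls pos e f t →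
    |P s t + Real.log (del cls pos e f t : ℝ)| ≤ τ
  tri : ∀ t, Conc cls pos e f t → |P e t| ≤ τ

/-- (LOC3) the loops -/
def S_LOC3 : Prop := ∀ (m : ℕ) (cls : Fin (m + 1) → Fin 3) (pos : Fin (m + 1) → ℤ) (lam : ℤ),
  Lines cls pos → lam ≠ 0 →
  ((m + 1 : ℕ) : ℝ) * (10 ^ 7 / (|(lam : ℝ)| * 2 ^ (m + 1))) ≤ 1 / 10 ^ 5 →
  ∀ e f, cls e ≠ cls f →
  ∃ (Γ : Torus (LR cls pos lam) 1) (P : Fin (m + 1) → Fin (m + 1) → ℝ),
    (∀ s t, Γ.reg (symb ![lu cls pos lam s, lu cls pos lam t]) = 2 * Real.pi * P s t) ∧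
    Loc3 cls pos (Real.log |(lam : ℝ)|) (tau3 m lam) e f P

/-- (POS3) positivity: with `A e f = ℓ c e f + ∑_s (dc)_{efs} log|del|` (the summand of a third line
through the point is zero), the regulator `R` on the loop of `e`, `f` is `2 A e f`, or
`2 (A e f + A t f)` if `t` is the third line through the point; `∑ c A = ∑ θ c R / 2` with `θ = 1` at
the double points and `2/3` at the triple points, because `dc = 0` there; then as `S_POS2` -/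
def S_POS3 : Prop := ∀ (m : ℕ) (cls : Fin (m + 1) → Fin 3) (pos : Fin (m + 1) → ℤ),
  Lines cls pos → ∀ (ℓ τ : ℝ) (P : Fin (m + 1) → Fin (m + 1) → Fin (m + 1) → Fin (m + 1) → ℝ),
  0 ≤ ℓ → 0 ≤ τ → 3 * τ * (m + 1) ^ 4 < ℓ + Real.log 2 * max 0 ((m : ℝ) - 17) →
  (∀ e f, cls e ≠ cls f → Loc3 cls pos ℓ τ e f (P e f)) →
  ∀ c : Fin (m + 1) → Fin (m + 1) → ℝ, CircT cls pos c →
    (∀ e f, cls e ≠ cls f → ∑ s, ∑ t, c s t * P e f s t = 0) → c = 0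

/-- (NUM3) -/
def S_NUM3 : Prop := ∀ (m : ℕ) (lam : ℤ), Big m lam →
  ((m + 1 : ℕ) : ℝ) * (10 ^ 7 / (|(lam : ℝ)| * 2 ^ (m + 1))) ≤ 1 / 10 ^ 5 ∧
  10 ^ 5 ≤ |lam| * 2 ^ (m + 1) ∧ 0 ≤ tau3 m lam ∧ 0 ≤ Real.log |(lam : ℝ)| ∧
  3 * tau3 m lam * (m + 1) ^ 4 < Real.log |(lam : ℝ)| + Real.log 2 * max 0 ((m : ℝ) - 17)

/-- (CNT3) at least `gen - trip` linearly independent circulations of this kind, with integral
values -/
def S_CNT3 : Prop := ∀ (m : ℕ) (cls : Fin (m + 1) → Fin 3) (pos : Fin (m + 1) → ℤ),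
  (∃ e f, cls e ≠ cls f) →
  ∃ C : Fin (gen cls - trip cls pos) → Fin (m + 1) → Fin (m + 1) → ℤ,
    (∀ j, CircT cls pos (C j)) ∧
    ∀ x : Fin (gen cls - trip cls pos) → ℝ, (∀ e f, ∑ j, x j * (C j e f : ℝ) = 0) → x = 0

/-- the conclusion -/
def S_MAIN3.{u} : Prop := ∀ (m : ℕ) (cls : Fin (m + 1) → Fin 3) (pos : Fin (m + 1) → ℤ)
  (lam : ℤ), Lines cls pos → Big m lam →
  IsDomain (LR cls pos lam) ∧
  (∀ x : Fin 2 → ℂ, MvPolynomial.eval₂ (algebraMap ℚ ℂ) x (leqn cls pos lam) = 0 →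
    ∃ j, MvPolynomial.eval₂ (algebraMap ℚ ℂ) x (MvPolynomial.pderiv j (leqn cls pos lam)) ≠ 0) ∧
  (∀ c, Circ cls c → ∀ (L : Type u) [Field L] (φ : LR cls pos lam →+* L),
    KQ.map 2 φ (cl cls pos lam c) ∈ Unramified L 2) ∧
  ∃ (C : Fin (gen cls - trip cls pos) → Fin (m + 1) → Fin (m + 1) → ℤ)
    (Γ : Fin (gen cls - trip cls pos) → Torus (LR cls pos lam) 1),
    (∀ j, Circ cls (C j)) ∧
    (Matrix.of fun i j => (Γ i).reg (cl cls pos lam (C j))).det ≠ 0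

end Pool.Agent.J4H48.LA
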